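import Pool.Agent.Helper68.SG2.GoalsC
import Pool.Agent.Helper77.SGC.SIEC

/-!
Project SG, stage 2 (MP_a41896_nt): SIE2T, the conditions of part 2 can be solved (adapted from
`Pool/Agent/Helper77/SGC/SIEC.lean`).
-/

set_option autoImplicit false

open MvPolynomial

namespace Pool.Agent.Helper98.SG2

open WeierstrassCurve Height
open Pool.Agent.Helper29.BL Pool.Agent.Helper92.Ru Pool.Agent.Helper42.SG
open Pool.Agent.Helper76.SGC (hz ho)
open Pool.Agent.Helper77.SGC (N0 SCAL SIGR HOUS fs fs_ext coeff_box coeff_box' coeff_mul_mono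
  coeff_big TT card_TT Row card_row natCast_le num_est one_le_PH)
open Pool.Agent.Helper68.SG2

noncomputable section

/-- the unknowns -/
abbrev Col (M k D : ℕ) (e : ℕ → ℕ) : Type :=
  Idx 1 M 1 e ⊕ TT k (4 ^ e 0) × Fin (2 * M + 1 - D) × Fin (2 * M + 1 - D)

theorem card_idx (M : ℕ) (e : ℕ → ℕ) :
    Fintype.card (Idx 1 M 1 e) = (4 ^ e 0 * (M + 1)) ^ 2 := by
  rw [Fintype.card_prod, Fintype.card_pi, Fintype.card_pi]
  rw [Fin.prod_univ_two, Fin.prod_univ_two]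
  simp only [Fintype.card_prod, Fintype.card_fin]
  have h1 : ((0 : Fin (2 * 1)).val / 2) = 0 := rfl
  have h2 : ((1 : Fin (2 * 1)).val / 2) = 0 := rfl
  rw [h1, h2]
  ring

theorem card_col (M k D : ℕ) (e : ℕ → ℕ) : Fintype.card (Col M k D e) =
    (4 ^ e 0 * (M + 1)) ^ 2 + 16 * (k * 4 ^ e 0) ^ 2 * (2 * M + 1 - D) ^ 2 := by
  rw [Fintype.card_sum, card_idx, Fintype.card_prod, card_TT, Fintype.card_prod, Fintype.card_fin]
  ring

theorem card_ineq {M k D : ℕ} {e : ℕ → ℕ} (hk : 1 ≤ k) (hM : 128 * D * k ^ 2 ≤ M) :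
    2 * Fintype.card (Row M k (4 ^ e 0)) + (4 ^ e 0 * (M + 1)) ^ 2 ≤
      2 * Fintype.card (Col M k D e) := by
  have h := Pool.Agent.Helper77.SGC.card_ineq (e := e 0) hk hM
  rw [Pool.Agent.Helper77.SGC.card_col] at h
  rw [card_col]
  exact h

variable {K : Type} [Field K]

/-- the entry of the row `(t, g, g')` at `α` -/
def ent (M : ℕ) (e : ℕ → ℕ) (E : K) (S S' : Bool → Fin 2 → ℕ → ℕ → ℕ → ℕ → K) (l l' : Bool)
    (μ μ' : Fin 2) (j j' g g' : ℕ) (α : Idx 1 M 1 e) : K :=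
  E * (S l μ j g (α.1 (hz 0)).1.val (α.1 (hz 0)).2.val *
    S' l' μ' j' g' (α.1 (ho 0)).1.val (α.1 (ho 0)).2.val)

/-- the coefficient of the conditions -/
def cf (M : ℕ) (e : ℕ → ℕ) (S S' : Bool → Fin 2 → ℕ → ℕ → ℕ → ℕ → K)
    (c : Idx 1 M 1 e → K) (l l' : Bool) (μ μ' : Fin 2) (j j' g g' : ℕ) : K :=
  ∑ α, c α * (S l μ j g (α.1 (hz 0)).1.val (α.1 (hz 0)).2.val *
    S' l' μ' j' g' (α.1 (ho 0)).1.val (α.1 (ho 0)).2.val)

theorem cf_eq (M : ℕ) (e : ℕ → ℕ) (E : K) (S S' : Bool → Fin 2 → ℕ → ℕ → ℕ → ℕ → K)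
    (c : Idx 1 M 1 e → K) (l l' : Bool) (μ μ' : Fin 2) (j j' g g' : ℕ) :
    E * cf M e S S' c l l' μ μ' j j' g g' = ∑ α, ent M e E S S' l l' μ μ' j j' g g' α * c α := by
  rw [cf, Finset.mul_sum]
  refine Finset.sum_congr rfl fun α _ => ?_
  rw [ent]
  ring

section nf

variable {T : ℕ → Bool} {W : ℕ → Affine K} {B : ℕ → AbsoluteValue K ℝ → ℝ} {D : ℕ → ℕ} {M : ℕ}
  {e : ℕ → ℕ} {S : ℕ → Bool → Fin 2 → ℕ → ℕ → ℕ → ℕ → K}

theorem ent_int (h : ArrT T W B D 1 M e S) (l l' : Bool) (μ μ' : Fin 2) (j j' g g' : ℕ)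
    (α : Idx 1 M 1 e) :
    IsIntegral ℤ (ent M e ((D 0 : K) ^ (4 ^ e 0 * (M + 1)) * (D 1 : K) ^ (4 ^ e 0 * (M + 1)))
      (S 0) (S 1) l l' μ μ' j j' g g' α) := by
  have e1 : ent M e ((D 0 : K) ^ (4 ^ e 0 * (M + 1)) * (D 1 : K) ^ (4 ^ e 0 * (M + 1)))
        (S 0) (S 1) l l' μ μ' j j' g g' α
      = ((D 0 : K) ^ (4 ^ e 0 * (M + 1)) * S 0 l μ j g (α.1 (hz 0)).1.val (α.1 (hz 0)).2.val) *
        ((D 1 : K) ^ (4 ^ e 0 * (M + 1)) *
          S 1 l' μ' j' g' (α.1 (ho 0)).1.val (α.1 (ho 0)).2.val) := by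
    rw [ent]
    ring
  rw [e1]
  exact (h.int 0 (by norm_num) l μ j g _ _).mul (h.int 1 (by norm_num) l' μ' j' g' _ _)

theorem ent_bd (h : ArrT T W B D 1 M e S) (hB : ∀ i v, 1 ≤ B i v)
    (l l' : Bool) (μ μ' : Fin 2) (j j' g g' : ℕ) (α : Idx 1 M 1 e) (v : AbsoluteValue K ℝ) :
    v (ent M e ((D 0 : K) ^ (4 ^ e 0 * (M + 1)) * (D 1 : K) ^ (4 ^ e 0 * (M + 1)))
      (S 0) (S 1) l l' μ μ' j j' g g' α) ≤
      (D 0 * D 1 * (B 0 v * B 1 v)) ^ (4 ^ e 0 * (M + 1)) := by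
  have b0 : 0 ≤ B 0 v := zero_le_one.trans (hB 0 v)
  have b1 : 0 ≤ B 1 v := zero_le_one.trans (hB 1 v)
  rw [ent, map_mul, map_mul, map_mul, map_pow, map_pow]
  have e1 : ((D 0 : ℝ) * D 1 * (B 0 v * B 1 v)) ^ (4 ^ e 0 * (M + 1)) =
      ((D 0 : ℝ) ^ (4 ^ e 0 * (M + 1)) * (D 1 : ℝ) ^ (4 ^ e 0 * (M + 1))) *
        (B 0 v ^ (4 ^ e 0 * (M + 1)) * B 1 v ^ (4 ^ e 0 * (M + 1))) := by
    rw [mul_pow, mul_pow, mul_pow]
  rw [e1]
  refine mul_le_mul (mul_le_mul (pow_le_pow_left₀ (v.nonneg _) (natCast_le v (D 0)) _)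
    (pow_le_pow_left₀ (v.nonneg _) (natCast_le v (D 1)) _) (by positivity) (by positivity))
    (mul_le_mul (h.bd 0 (by norm_num) l μ j g _ _ v) (h.bd 1 (by norm_num) l' μ' j' g' _ _ v)
      (v.nonneg _) (by positivity)) (by positivity) (by positivity)

end nf

/-! ## The equations -/

/-- the index which belongs to `p` -/
def dec (t : Bool) (M e : ℕ) (μ : Fin 2) (p : ℕ) : ℕ := if t = true then p else N0 M e - 2 * μ.val - p

/-- the matrix, with entries in `K` -/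
def aK (T : ℕ → Bool) (M D k : ℕ) (e : ℕ → ℕ) (E r : K)
    (S S' : Bool → Fin 2 → ℕ → ℕ → ℕ → ℕ → K)
    (f : MvPolynomial (Fin 2) K) (R : Row M k (4 ^ e 0)) : Col M k D e → K
  | Sum.inl α => ent M e E S S' R.1.1 R.1.2.1 R.1.2.2.1 R.1.2.2.2.1
      (dec (T 0) M (e 0) R.1.2.2.1 R.1.2.2.2.2.1.val)
      (dec (T 1) M (e 0) R.1.2.2.2.1 R.1.2.2.2.2.2.val) R.2.1.val R.2.2.val α
  | Sum.inr p => if R.1 = p.1 then
      (if p.2.1.val ≤ R.2.1.val ∧ p.2.2.val ≤ R.2.2.val then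
        -(r * coeff (fs (R.2.1.val - p.2.1.val) (R.2.2.val - p.2.2.val)) f) else 0) else 0

/-- the quotient polynomials -/
def hh (M D k : ℕ) (e : ℕ → ℕ) (ξ : Col M k D e → K) (t : TT k (4 ^ e 0)) :
    MvPolynomial (Fin 2) K :=
  ∑ x : Fin (2 * M + 1 - D), ∑ y : Fin (2 * M + 1 - D),
    C (ξ (Sum.inr (t, x, y))) * (X 0 ^ x.val * X 1 ^ y.val)

/-- the polynomial identity from the equations -/
theorem identity {T : ℕ → Bool} {M D k : ℕ} {e : ℕ → ℕ} {E r : K}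
    {S S' : Bool → Fin 2 → ℕ → ℕ → ℕ → ℕ → K}
    {f : MvPolynomial (Fin 2) K} (hf : ∀ i, f.degreeOf i ≤ D) {ξ : Col M k D e → K}
    (h : ∀ R, ∑ col, aK T M D k e E r S S' f R col * ξ col = 0) (t : TT k (4 ^ e 0)) :
    C E * (∑ g ∈ Finset.range (2 * M + 1), ∑ g' ∈ Finset.range (2 * M + 1),
      C (cf M e S S' (fun α => ξ (Sum.inl α)) t.1 t.2.1 t.2.2.1 t.2.2.2.1
        (dec (T 0) M (e 0) t.2.2.1 t.2.2.2.2.1.val)
        (dec (T 1) M (e 0) t.2.2.2.1 t.2.2.2.2.2.val) g g') * (X 0 ^ g * X 1 ^ g')) =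
      C r * (f * hh M D k e ξ t) := by
  ext s
  obtain ⟨g, g', rfl⟩ : ∃ g g', s = fs g g' := ⟨s 0, s 1, fs_ext rfl rfl⟩
  rw [coeff_C_mul, coeff_C_mul, coeff_box, hh, Finset.mul_sum, coeff_sum]
  simp only [Finset.mul_sum, coeff_sum, coeff_mul_mono]
  by_cases hg : g < 2 * M + 1 ∧ g' < 2 * M + 1
  · rw [if_pos hg, cf_eq]
    have h1 := h (t, ⟨g, hg.1⟩, ⟨g', hg.2⟩)
    rw [Fintype.sum_sum_type] at h1
    have h3 : ∑ p : TT k (4 ^ e 0) × Fin (2 * M + 1 - D) × Fin (2 * M + 1 - D),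
        aK T M D k e E r S S' f (t, ⟨g, hg.1⟩, ⟨g', hg.2⟩) (Sum.inr p) * ξ (Sum.inr p) =
        ∑ x : Fin (2 * M + 1 - D), ∑ y : Fin (2 * M + 1 - D),
          aK T M D k e E r S S' f (t, ⟨g, hg.1⟩, ⟨g', hg.2⟩) (Sum.inr (t, x, y)) *
            ξ (Sum.inr (t, x, y)) := by
      rw [Fintype.sum_prod_type, Finset.sum_eq_single t, Fintype.sum_prod_type]
      · intro t' _ ht'
        refine Finset.sum_eq_zero fun p _ => ?_
        rw [aK, if_neg (fun h' => ht' h'.symm), zero_mul]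
      · intro h'
        exact absurd (Finset.mem_univ _) h'
    have h2 : ∑ x : Fin (2 * M + 1 - D), ∑ y : Fin (2 * M + 1 - D),
          aK T M D k e E r S S' f (t, ⟨g, hg.1⟩, ⟨g', hg.2⟩) (Sum.inr (t, x, y)) *
            ξ (Sum.inr (t, x, y)) =
          - ∑ x : Fin (2 * M + 1 - D), ∑ y : Fin (2 * M + 1 - D),
            r * (if x.val ≤ g ∧ y.val ≤ g' then
              coeff (fs (g - x.val) (g' - y.val)) f * ξ (Sum.inr (t, x, y)) else 0) := by
      rw [← Finset.sum_neg_distrib]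
      refine Finset.sum_congr rfl fun x _ => ?_
      rw [← Finset.sum_neg_distrib]
      refine Finset.sum_congr rfl fun y _ => ?_
      rw [aK, if_pos rfl]
      by_cases hxy : x.val ≤ g ∧ y.val ≤ g'
      · rw [if_pos hxy, if_pos hxy]
        ring
      · rw [if_neg hxy, if_neg hxy]
        ring
    rw [h3, h2] at h1
    exact add_neg_eq_zero.mp h1
  · rw [if_neg hg, mul_zero]
    symm
    refine Finset.sum_eq_zero fun x _ => Finset.sum_eq_zero fun y _ => ?_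
    by_cases hxy : x.val ≤ g ∧ y.val ≤ g'
    · rw [if_pos hxy, coeff_big hf, zero_mul, mul_zero]
      have hx := x.isLt
      have hy := y.isLt
      omega
    · rw [if_neg hxy, mul_zero]

/-- the sum of `CondT` for `n = 1` -/
theorem sum_update {M : ℕ} {e : ℕ → ℕ} (α0 : ∀ h, AxM 1 M e h)
    (F : (∀ h, AxM 1 M e h) → AxM 1 M e (hz 0) → AxM 1 M e (ho 0) → K) :
    ∑ x : AxM 1 M e (hz 0), ∑ x' : AxM 1 M e (ho 0),
      F (Function.update (Function.update α0 (hz 0) x) (ho 0) x') x x' =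
      ∑ a : (∀ h, AxM 1 M e h), F a (a (hz 0)) (a (ho 0)) := by
  classical
  have hne : (hz 0 : Fin (2 * 1)) ≠ ho 0 := by decide
  rw [← Fintype.sum_prod_type']
  refine Fintype.sum_equiv
    { toFun := fun x => Function.update (Function.update α0 (hz 0) x.1) (ho 0) x.2
      invFun := fun a => (a (hz 0), a (ho 0))
      left_inv := ?_
      right_inv := ?_ } _ _ ?_
  · rintro ⟨x, x'⟩
    refine Prod.ext ?_ ?_
    · change Function.update (Function.update α0 (hz 0) x) (ho 0) x' (hz 0) = x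
      rw [Function.update_of_ne hne, Function.update_self]
    · change Function.update (Function.update α0 (hz 0) x) (ho 0) x' (ho 0) = x'
      rw [Function.update_self]
  · intro a
    funext h
    change Function.update (Function.update α0 (hz 0) (a (hz 0))) (ho 0) (a (ho 0)) h = a h
    have hh : h = hz 0 ∨ h = ho 0 := by
      fin_cases h
      · exact Or.inl rfl
      · exact Or.inr rfl
    rcases hh with rfl | rfl
    · rw [Function.update_of_ne hne, Function.update_self]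
    · rw [Function.update_self]
  · rintro ⟨x, x'⟩
    change F (Function.update (Function.update α0 (hz 0) x) (ho 0) x') x x' =
      F (Function.update (Function.update α0 (hz 0) x) (ho 0) x')
        (Function.update (Function.update α0 (hz 0) x) (ho 0) x' (hz 0))
        (Function.update (Function.update α0 (hz 0) x) (ho 0) x' (ho 0))
    rw [Function.update_self, Function.update_of_ne hne, Function.update_self]

theorem cond_sum {M : ℕ} {e : ℕ → ℕ} (S : ℕ → Bool → Fin 2 → ℕ → ℕ → ℕ → ℕ → K)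
    (c : Idx 1 M 1 e → K) (α0 : ∀ h, AxM 1 M e h) (l l' : Bool) (μ μ' : Fin 2) (i i' g g' : ℕ) :
    (∑ x : AxM 1 M e (hz 0), ∑ x' : AxM 1 M e (ho 0), ∑ β : Fin 2 → Fin 1,
        c (Function.update (Function.update α0 (hz 0) x) (ho 0) x', β) *
          (sgT (S 0) l μ i g x.1.val x.2.val (β 0).val *
            sgT (S 1) l' μ' i' g' x'.1.val x'.2.val (β 1).val)) =
      cf M e (S 0) (S 1) c l l' μ μ' i i' g g' := by
  have h1 : ∀ (β : Fin 2 → Fin 1) (t : Fin 2), (β t).val = 0 := fun β t => by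
    have := (β t).isLt
    omega
  have h2 : ∀ (S : Bool → Fin 2 → ℕ → ℕ → ℕ → ℕ → K) (l : Bool) (μ : Fin 2) (j g i m : ℕ),
      sgT S l μ j g i m 0 = S l μ j g i m := by
    intro S l μ j g i m
    rw [sgT, if_pos (Nat.zero_le g), Nat.sub_zero]
  simp only [h1, h2]
  rw [sum_update α0 (fun a x x' => ∑ β : Fin 2 → Fin 1, c (a, β) *
    (S 0 l μ i g x.1.val x.2.val * S 1 l' μ' i' g' x'.1.val x'.2.val)), cf,
    Fintype.sum_prod_type]

/-- the forbidden indices are of the form `dec p` -/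
theorem dec_exists {t : Bool} {M e k0 : ℕ} {μ : Fin 2} {j : ℕ}
    (h1 : t = false → j + 2 * μ.val ≤ N0 M e) (h2 : drop t M e μ j < 2 * k0 * 4 ^ e) :
    ∃ p, p < 2 * k0 * 4 ^ e ∧ dec t M e μ p = j := by
  cases t with
  | true =>
    rw [drop, if_pos rfl] at h2
    exact ⟨j, h2, by rw [dec, if_pos rfl]⟩
  | false =>
    have h3 := h1 rfl
    rw [drop, if_neg (by decide)] at h2
    refine ⟨N0 M e - (j + 2 * μ.val), by omega, ?_⟩
    rw [dec, if_neg (by decide)]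
    omega

/-- **SIE2T** -/
theorem t_SIE2T (h0 : SCAL) (h1 : SIGR) (h2 : HOUS) : Pool.Agent.Helper68.SG2.SIE2T := by
  intro K _ _ T W B D' hB hD' D M k0 hk hM hM1
  obtain ⟨c1, hc1, hS⟩ := h1 K
  have hd0 : (1 : ℝ) ≤ D' 0 := by exact_mod_cast hD' 0
  have hd1 : (1 : ℝ) ≤ D' 1 := by exact_mod_cast hD' 1
  obtain ⟨b0, hb0, hb⟩ := h2 K (fun v => D' 0 * D' 1 * (B 0 v * B 1 v)) (fun v =>
    one_le_mul_of_one_le_of_one_le (one_le_mul_of_one_le_of_one_le hd0 hd1)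
      (one_le_mul_of_one_le_of_one_le (hB 0 v) (hB 1 v)))
  have hk' : 1 ≤ 2 * k0 := by omega
  have hM' : 128 * D * (2 * k0) ^ 2 ≤ M := by
    have : 128 * D * (2 * k0) ^ 2 = 512 * D * k0 ^ 2 := by ring
    omega
  obtain ⟨K2, hK2d⟩ : ∃ K2 : ℝ,
      K2 = (((M + 1) ^ 2 + 16 * (2 * k0) ^ 2 * (2 * M + 1) ^ 2 : ℕ) : ℝ) := ⟨_, rfl⟩
  have hK2 : 1 ≤ K2 := by
    have : 1 ≤ (M + 1) ^ 2 + 16 * (2 * k0) ^ 2 * (2 * M + 1) ^ 2 :=
      (Nat.one_le_pow _ _ (Nat.succ_pos M)).trans (Nat.le_add_right _ _)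
    rw [hK2d]
    exact_mod_cast this
  have lc : 0 ≤ Real.log c1 := Real.log_nonneg hc1
  have lb : 0 ≤ Real.log b0 := Real.log_nonneg hb0
  have lck : 0 ≤ Real.log (c1 * K2) := Real.log_nonneg (one_le_mul_of_one_le_of_one_le hc1 hK2)
  refine ⟨Real.log c1 + ((128 * (2 * k0) ^ 2 : ℕ) : ℝ) * (Real.log (c1 * K2) + 2 +
    ((M + 1 : ℕ) : ℝ) * Real.log b0 + (((D + 1) ^ 2 + 1 : ℕ) : ℝ)), by positivity, ?_⟩
  intro e S hSA f hf0 hfD
  obtain ⟨r, hr0, hr⟩ := h0 K D f hf0 hfD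
  have hH : 1 ≤ PH f := one_le_PH f
  set E : K := (D' 0 : K) ^ (4 ^ e 0 * (M + 1)) * (D' 1 : K) ^ (4 ^ e 0 * (M + 1)) with hE
  have hE0 : E ≠ 0 := mul_ne_zero (pow_ne_zero _ (Nat.cast_ne_zero.mpr (hD' 0).ne'))
    (pow_ne_zero _ (Nat.cast_ne_zero.mpr (hD' 1).ne'))
  have hq1 : 1 ≤ 4 ^ e 0 := Nat.one_le_pow _ _ (by norm_num)
  have hint : ∀ R col, IsIntegral ℤ (aK T M D (2 * k0) e E r (S 0) (S 1) f R col) := by
    rintro R (α | p)
    · exact ent_int hSA _ _ _ _ _ _ _ _ α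
    · rw [aK]
      split_ifs
      · exact (hr _).1.neg
      · exact isIntegral_zero
      · exact isIntegral_zero
  have hA1 : (1 : ℝ) ≤ PH f ^ ((D + 1) ^ 2 + 1) := one_le_pow₀ hH
  have hA2 : (1 : ℝ) ≤ b0 ^ (4 ^ e 0 * (M + 1)) := one_le_pow₀ hb0
  have hhouse : ∀ R col, NumberField.house (aK T M D (2 * k0) e E r (S 0) (S 1) f R col) ≤
      b0 ^ (4 ^ e 0 * (M + 1)) * PH f ^ ((D + 1) ^ 2 + 1) := by
    rintro R (α | p)
    · refine (hb _ _ fun v => ent_bd hSA hB _ _ _ _ _ _ _ _ α v).trans ?_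
      exact le_mul_of_one_le_right (by positivity) hA1
    · rw [aK]
      split_ifs
      · have e1 : ∀ x : K, NumberField.house (-x) = NumberField.house x := by
          intro x
          rw [NumberField.house, NumberField.house, map_neg, norm_neg]
        rw [e1]
        exact (hr _).2.trans (le_mul_of_one_le_left (by positivity) hA2)
      · have e2 : NumberField.house (0 : K) = 0 := by
          rw [NumberField.house, map_zero, norm_zero]
        rw [e2]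
        positivity
      · have e2 : NumberField.house (0 : K) = 0 := by
          rw [NumberField.house, map_zero, norm_zero]
        rw [e2]
        positivity
  let a : Matrix (Row M (2 * k0) (4 ^ e 0)) (Col M (2 * k0) D e) (NumberField.RingOfIntegers K) :=
    Matrix.of fun R col => ⟨aK T M D (2 * k0) e E r (S 0) (S 1) f R col, hint R col⟩
  have hci := card_ineq (e := e) hk' hM'
  have hqM : 0 < (4 ^ e 0 * (M + 1)) ^ 2 := by positivity
  have hlt : Fintype.card (Row M (2 * k0) (4 ^ e 0)) < Fintype.card (Col M (2 * k0) D e) := by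
    omega
  have hρ : Fintype.card (Row M (2 * k0) (4 ^ e 0)) ≤ 128 * (2 * k0) ^ 2 *
      (Fintype.card (Col M (2 * k0) D e) - Fintype.card (Row M (2 * k0) (4 ^ e 0))) := by
    have t1 : (4 ^ e 0 * (M + 1)) ^ 2 ≤ 2 * (Fintype.card (Col M (2 * k0) D e) -
        Fintype.card (Row M (2 * k0) (4 ^ e 0))) := by omega
    have t2 : Fintype.card (Row M (2 * k0) (4 ^ e 0)) ≤
        64 * (2 * k0) ^ 2 * (4 ^ e 0 * (M + 1)) ^ 2 := by
      rw [card_row]
      have t3 : (2 * M + 1) ^ 2 ≤ 4 * (M + 1) ^ 2 := by nlinarith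
      calc 16 * (2 * k0 * 4 ^ e 0) ^ 2 * (2 * M + 1) ^ 2
          ≤ 16 * (2 * k0 * 4 ^ e 0) ^ 2 * (4 * (M + 1) ^ 2) := Nat.mul_le_mul_left _ t3
        _ = 64 * (2 * k0) ^ 2 * (4 ^ e 0 * (M + 1)) ^ 2 := by ring
    calc Fintype.card (Row M (2 * k0) (4 ^ e 0)) ≤
          64 * (2 * k0) ^ 2 * (4 ^ e 0 * (M + 1)) ^ 2 := t2
      _ ≤ 64 * (2 * k0) ^ 2 * (2 * (Fintype.card (Col M (2 * k0) D e) -
          Fintype.card (Row M (2 * k0) (4 ^ e 0)))) := Nat.mul_le_mul_left _ t1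
      _ = _ := by ring
  obtain ⟨ξ, hξ0, hξ, hξh⟩ := hS (Row M (2 * k0) (4 ^ e 0)) (Col M (2 * k0) D e) a
    (b0 ^ (4 ^ e 0 * (M + 1)) * PH f ^ ((D + 1) ^ 2 + 1)) (128 * (2 * k0) ^ 2)
    (one_le_mul_of_one_le_of_one_le hA2 hA1) hlt hρ (fun R col => hhouse R col)
  have heq : ∀ R, ∑ col, aK T M D (2 * k0) e E r (S 0) (S 1) f R col *
      ((ξ col : NumberField.RingOfIntegers K) : K) = 0 := by
    intro R
    have t1 := congrFun hξ R
    have t2 := congrArg (algebraMap (NumberField.RingOfIntegers K) K) t1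
    rw [Matrix.mulVec, dotProduct, Pi.zero_apply, map_zero, map_sum] at t2
    rw [← t2]
    refine Finset.sum_congr rfl fun col _ => ?_
    rw [map_mul]
    rfl
  have hid := identity (ξ := fun col => ((ξ col : NumberField.RingOfIntegers K) : K)) hfD heq
  refine ⟨fun α => ((ξ (Sum.inl α) : NumberField.RingOfIntegers K) : K), ?_, ?_, ?_, ?_⟩
  · intro hc
    have hcα : ∀ α, ((ξ (Sum.inl α) : NumberField.RingOfIntegers K) : K) = 0 := fun α =>
      congrFun hc α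
    apply hξ0
    funext col
    rcases col with α | p
    · exact NumberField.RingOfIntegers.coe_injective
        ((hcα α).trans (by rw [Pi.zero_apply, map_zero]))
    · obtain ⟨t, x, y⟩ := p
      have t1 := hid t
      have t2 : ∀ l l' μ μ' j j' g g', cf M e (S 0) (S 1)
          (fun α => ((ξ (Sum.inl α) : NumberField.RingOfIntegers K) : K)) l l' μ μ' j j' g g'
          = 0 := by
        intro l l' μ μ' j j' g g'
        rw [cf]
        refine Finset.sum_eq_zero fun α _ => ?_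
        rw [hcα α, zero_mul]
      simp only [t2, map_zero, zero_mul, Finset.sum_const_zero, mul_zero] at t1
      have t3 : hh M D (2 * k0) e
          (fun col => ((ξ col : NumberField.RingOfIntegers K) : K)) t = 0 := by
        rcases mul_eq_zero.mp t1.symm with t4 | t4
        · exact absurd ((C_eq_zero).mp t4) hr0
        · exact (mul_eq_zero.mp t4).resolve_left hf0
      have t5 := coeff_box' (2 * M + 1 - D)
        (fun x y => ((ξ (Sum.inr (t, x, y)) : NumberField.RingOfIntegers K) : K)) x y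
      rw [hh] at t3
      rw [t3, coeff_zero] at t5
      exact NumberField.RingOfIntegers.coe_injective
        (t5.symm.trans (by rw [Pi.zero_apply, map_zero]))
  · intro α
    exact (ξ (Sum.inl α)).isIntegral_coe
  · intro α
    refine (hξh (Sum.inl α)).trans ?_
    have t1 : (Fintype.card (Col M (2 * k0) D e) : ℝ) ≤ ((4 : ℝ) ^ e 0) ^ 2 * K2 := by
      have t2 : Fintype.card (Col M (2 * k0) D e) ≤
          (4 ^ e 0) ^ 2 * ((M + 1) ^ 2 + 16 * (2 * k0) ^ 2 * (2 * M + 1) ^ 2) := by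
        rw [card_col]
        have t3 : (2 * M + 1 - D) ^ 2 ≤ (2 * M + 1) ^ 2 := Nat.pow_le_pow_left (by omega) 2
        calc (4 ^ e 0 * (M + 1)) ^ 2 + 16 * (2 * k0 * 4 ^ e 0) ^ 2 * (2 * M + 1 - D) ^ 2
            ≤ (4 ^ e 0 * (M + 1)) ^ 2 + 16 * (2 * k0 * 4 ^ e 0) ^ 2 * (2 * M + 1) ^ 2 :=
              Nat.add_le_add_left (Nat.mul_le_mul_left _ t3) _
          _ = _ := by ring
      rw [hK2d]
      exact_mod_cast t2
    have t4 := num_est (M := M + 1) (D := (D + 1) ^ 2 + 1) (ρ := 128 * (2 * k0) ^ 2) hc1 hK2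
      hb0 hH (q := (4 : ℝ) ^ e 0) (one_le_pow₀ (by norm_num)) (n := 4 ^ e 0)
      (by push_cast; rfl) (Nat.cast_nonneg _) t1
    exact t4
  · intro j α0 l l' μ μ' i i' hF
    obtain rfl : j = 0 := Subsingleton.elim _ _
    obtain ⟨f1, f2, f3⟩ := hF
    have f4 : drop (T 0) M (e 0) μ i < 2 * k0 * 4 ^ e 0 := lt_of_le_of_lt (Nat.le_add_right _ _) f3
    have f5 : drop (T 1) M (e 0) μ' i' < 2 * k0 * 4 ^ e 0 :=
      lt_of_le_of_lt (Nat.le_add_left _ _) f3
    have f1' : T 0 = false → i + 2 * μ.val ≤ N0 M (e 0) := f1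
    have f2' : T 1 = false → i' + 2 * μ'.val ≤ N0 M (e 0) := f2
    obtain ⟨p, hp, hpi⟩ := dec_exists f1' f4
    obtain ⟨p', hp', hpi'⟩ := dec_exists f2' f5
    have t1 := hid (l, l', μ, μ', ⟨p, hp⟩, ⟨p', hp'⟩)
    simp only [hpi, hpi'] at t1
    have t0 : ∀ g g', (∑ x : AxM 1 M e (hz 0), ∑ x' : AxM 1 M e (ho 0), ∑ β : Fin 2 → Fin 1,
        ((ξ (Sum.inl (Function.update (Function.update α0 (hz 0) x) (ho 0) x', β)) :
          NumberField.RingOfIntegers K) : K) *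
          (sgT (S (2 * (0 : Fin 1).val)) l μ i g x.1.val x.2.val (β 0).val *
            sgT (S (2 * (0 : Fin 1).val + 1)) l' μ' i' g' x'.1.val x'.2.val (β 1).val)) =
        cf M e (S 0) (S 1) (fun α => ((ξ (Sum.inl α) : NumberField.RingOfIntegers K) : K))
          l l' μ μ' i i' g g' := fun g g' =>
      cond_sum S (fun α => ((ξ (Sum.inl α) : NumberField.RingOfIntegers K) : K)) α0
        l l' μ μ' i i' g g'
    simp only [t0]
    refine ⟨C (E⁻¹ * r) * hh M D (2 * k0) e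
      (fun col => ((ξ col : NumberField.RingOfIntegers K) : K))
      (l, l', μ, μ', ⟨p, hp⟩, ⟨p', hp'⟩), ?_⟩
    have t2 := congrArg (fun P => C E⁻¹ * P) t1
    rw [← mul_assoc, ← C_mul, inv_mul_cancel₀ hE0, C_1, one_mul] at t2
    rw [t2, C_mul]
    ring

end

end Pool.Agent.Helper98.SG2
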